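import Pool.Agent.Helper993.CS.Z5

open Filter Topology

namespace Pool.Agent.Results.MP_429595_ag.UniformLowerBound

open Pool.Agent.Helper993.CS

universe u

/-- For every `N ≥ 1` there is a constant `γ > 0` such that, for every algebraically closed field
`K` and every dominant rational self-map `f` of `ℙ^N` over `K` (given by forms `f_0,…,f_N` of one
common degree without common factor, algebraically independent), the degrees `deg n = deg (f^n)`
(after cancelling every common factor of the `n`-th composite) are well defined and positive, the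
dynamical degree `δ = lim deg(f^n)^(1/n)` exists and
`δ ≥ γ · min_{0 ≤ j < N} deg(f^(j+1)) / deg(f^j)`. -/
theorem result (N : ℕ) (hN : 1 ≤ N) : ∃ γ : ℝ, 0 < γ ∧
    ∀ (K : Type u) [Field K] [IsAlgClosed K] (d : ℕ)
      (f : Fin (N + 1) → MvPolynomial (Fin (N + 1)) K),
      (∀ i, (f i).IsHomogeneous d) →
      (∀ q : MvPolynomial (Fin (N + 1)) K, (∀ i, q ∣ f i) → IsUnit q) →
      (∀ P : MvPolynomial (Fin (N + 1)) K, P ≠ 0 → MvPolynomial.aeval f P ≠ 0) →
      ∃ deg : ℕ → ℕ,
        (∀ n, RedDeg (iter f n) (deg n) ∧ ∀ d', RedDeg (iter f n) d' → d' = deg n) ∧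
        (∀ n, 0 < deg n) ∧
        ∃ δ : ℝ, Tendsto (fun n : ℕ => (deg n : ℝ) ^ ((1 : ℝ) / n)) atTop (𝓝 δ) ∧
          γ * (Finset.range N).inf' (Finset.nonempty_range_iff.mpr (by omega))
            (fun j => (deg (j + 1) : ℝ) / deg j) ≤ δ := by
  have key : ∃ γ : ℝ, 0 < γ ∧
      ∀ (K : Type u) [Field K] [Infinite K] (d : ℕ)
        (f : Fin (N + 1) → MvPolynomial (Fin (N + 1)) K),
        (∀ i, (f i).IsHomogeneous d) → AlgebraicIndependent K f →
        ∃ D : ℕ → ℕ, (∀ n, 0 < D n) ∧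
          (∀ n, RedDeg (iter f n) (D n) ∧ ∀ d', RedDeg (iter f n) d' → d' = D n) ∧
          ∃ δ : ℝ, Tendsto (fun n : ℕ => (D n : ℝ) ^ ((1 : ℝ) / n)) atTop (𝓝 δ) ∧
            ∀ m : ℝ, (∀ j < N, m * D j ≤ D (j + 1)) → γ * m ≤ δ := by
    rcases Nat.lt_or_ge N 2 with h | h
    · obtain rfl : N = 0 + 1 := by omega
      exact ⟨1, one_pos, main_one⟩
    · obtain ⟨M, rfl⟩ : ∃ M, N = M + 1 := ⟨N - 1, by omega⟩
      exact main_ge_two M (by omega)
  obtain ⟨γ, hγ, hmain⟩ := key
  refine ⟨γ, hγ, fun K _ _ d f hf _ hdom => ?_⟩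
  have : Infinite K := inferInstance
  have hind : AlgebraicIndependent K f := by
    rw [algebraicIndependent_iff]
    intro p hp
    by_contra hne
    exact hdom p hne hp
  obtain ⟨D, hpos, hD, δ, hδ, hb⟩ := hmain K d f hf hind
  refine ⟨D, hD, hpos, δ, hδ, hb _ fun j hj => ?_⟩
  have h1 : (Finset.range N).inf' (Finset.nonempty_range_iff.mpr (by omega))
      (fun j => (D (j + 1) : ℝ) / D j) ≤ (D (j + 1) : ℝ) / D j :=
    Finset.inf'_le _ (Finset.mem_range.mpr hj)
  have h2 : (0 : ℝ) < D j := by exact_mod_cast hpos j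
  calc _ ≤ (D (j + 1) : ℝ) / D j * D j := mul_le_mul_of_nonneg_right h1 h2.le
    _ = D (j + 1) := div_mul_cancel₀ _ h2.ne'

end Pool.Agent.Results.MP_429595_ag.UniformLowerBound
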